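import Pool.Agent.Helper4_SOS.T3
import Pool.Agent.LPV.Defs

/-!
# Expansion of the conditions of a certificate (helper57, for MP_37fa12_co)

`LL0`, `LS0`, ... are dense polynomials; the functions `E1`, `E2`, `E1'`, `E2'`, `cst` of a
certificate with dense data, times `550`, are values of integer lists (`κ = 25/22`).
-/

set_option autoImplicit false

namespace Pool.Agent.SOS.H57

open Pool.Agent.SOS Pool.Agent.LPK Pool.Agent.LPV

/-! ### heads, axes, diagonals -/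

def h1 : D1 → ℤ
  | [] => 0
  | c :: _ => c
def h2 : D2 → D1
  | [] => []
  | c :: _ => c
def h3 : D3 → D2
  | [] => []
  | c :: _ => c

theorem v1_zero : ∀ p : D1, v1 p 0 = h1 p
  | [] => by simp [v1_nil, h1]
  | c :: p => by rw [v1_cons, h1]; ring

theorem v2_zero (y : ℝ) : ∀ p : D2, v2 p 0 y = v1 (h2 p) y
  | [] => rfl
  | c :: p => by rw [v2_cons, h2]; ring

theorem v3_zero (y z : ℝ) : ∀ p : D3, v3 p 0 y z = v2 (h3 p) y z
  | [] => rfl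
  | c :: p => by rw [v3_cons, h3]; ring

/-- `p(x, 0)` -/
def ax2 (p : D2) : D1 := p.map h1
/-- `p(x, 0, 0)` -/
def axA (p : D3) : D1 := p.map fun q => h1 (h2 q)
/-- `p(0, x, 0)` -/
def axB (p : D3) : D1 := ax2 (h3 p)

theorem v2_ax2 (x : ℝ) : ∀ p : D2, v2 p x 0 = v1 (ax2 p) x
  | [] => rfl
  | c :: p => by
    show v2 (c :: p) x 0 = v1 (h1 c :: ax2 p) x
    rw [v2_cons, v1_cons, v1_zero, v2_ax2 x p]

theorem v3_axA (x : ℝ) : ∀ p : D3, v3 p x 0 0 = v1 (axA p) x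
  | [] => rfl
  | c :: p => by
    show v3 (c :: p) x 0 0 = v1 (h1 (h2 c) :: axA p) x
    rw [v3_cons, v1_cons, v2_zero, v1_zero, v3_axA x p]

theorem v3_axB (x : ℝ) (p : D3) : v3 p 0 x 0 = v1 (axB p) x := by
  rw [v3_zero, v2_ax2, axB]

theorem v3_000 (p : D3) : v3 p 0 0 0 = h1 (axA p) := by rw [v3_axA, v1_zero]

/-- `p(x²)` -/
def sp : D1 → D1
  | [] => []
  | c :: p => c :: 0 :: sp p

theorem v1_sp (x : ℝ) : ∀ p : D1, v1 (sp p) x = v1 p (x ^ 2)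
  | [] => rfl
  | c :: p => by
    rw [sp, v1_cons, v1_cons, v1_cons, v1_sp x p]
    push_cast
    ring

/-- `p(x, x²)` -/
def dia2 : D2 → D1
  | [] => []
  | r :: p => add1 (sp r) (0 :: dia2 p)

theorem v1_dia2 (x : ℝ) : ∀ p : D2, v1 (dia2 p) x = v2 p x (x ^ 2)
  | [] => rfl
  | r :: p => by
    rw [dia2, v1_add, v1_cons, v1_sp, v1_dia2 x p, v2_cons]
    push_cast
    ring

/-- `p(x, x, x²)` -/
def dia3 : D3 → D1
  | [] => []
  | r :: p => add1 (dia2 r) (0 :: dia3 p)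

theorem v1_dia3 (x : ℝ) : ∀ p : D3, v1 (dia3 p) x = v3 p x x (x ^ 2)
  | [] => rfl
  | r :: p => by
    rw [dia3, v1_add, v1_cons, v1_dia2, v1_dia3 x p, v3_cons]
    push_cast
    ring

/-! ### one variable -/

theorem v1_e1 (x : ℝ) : ∀ p : List ℤ, v1 p x = e1 p x
  | [] => rfl
  | c :: p => by rw [v1_cons, e1, v1_e1 x p]

/-- `p(m x)` -/
def dil (m : ℤ) : D1 → D1
  | [] => []
  | c :: p => c :: sc1 m (dil m p)

theorem v1_dil (m : ℤ) (x : ℝ) : ∀ p : D1, v1 (dil m p) x = v1 p (m * x)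
  | [] => rfl
  | c :: p => by rw [dil, v1_cons, v1_sc, v1_dil m x p, v1_cons]; ring

/-- a polynomial in `A` as a dense polynomial -/
def u3 (p : D1) : D3 := p.map fun c => [[c]]

theorem s3_u3 (L : ℕ → ℕ → ℕ → ℝ) : ∀ p : D1, s3 L (u3 p) = s1 (fun i => L i 0 0) p := by
  intro p
  induction p generalizing L with
  | nil => rfl
  | cons c p ih =>
    show s3 L ([[c]] :: u3 p) = _
    rw [s3, ih, s1]
    simp [s2, s1]

/-! ### the data -/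

/-- the data of a certificate in dense form -/
structure DD where
  P : D3
  Q : D3
  g : D1
  w : List (ℕ × ℤ × ℤ × List ℤ)
  ps : List (ℕ × ℤ × List ℤ)
  pl : List (ℕ × List ℤ × List (ℕ × List ℤ))

/-- the data -/
def DD.W (d : DD) : DW where
  P := ofD d.P
  Q := ofD d.Q
  g := ofD (u3 d.g)
  w := d.w
  ps := d.ps
  pl := d.pl
  wl := []

theorem evg_u3 (p : D1) : ∀ t ∈ ofD (u3 p), t.2.2.1 = 0 ∧ t.2.2.2 = 0 := by
  have key : ∀ (p : D1) (i : ℕ), ∀ t ∈ o3 i (u3 p), t.2.2.1 = 0 ∧ t.2.2.2 = 0 := by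
    intro p
    induction p with
    | nil => intro i t ht; exact absurd ht List.not_mem_nil
    | cons c p ih =>
      intro i t ht
      have e : o3 i (u3 (c :: p)) = (c, i, 0, 2 * 0) :: o3 (i + 1) (u3 p) := rfl
      rw [e] at ht
      rcases List.mem_cons.1 ht with rfl | ht
      · exact ⟨rfl, rfl⟩
      · exact ih _ t ht
  exact key p 0

/-! ### the dual side and the mixed pairs -/

/-- `-550 LS` -/
def ls0 (tP tQ : D3) : D3 := add3 (sc3 484 (swp tP)) (sc3 625 tQ)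

theorem LS_eq (d : DD) {tP tQ : D3} (hP : t3 22 d.P = tP) (hQ : t3 22 d.Q = tQ) (A B H : ℝ) :
    550 * d.W.LS 22 (25 / 22) A B H = -v3 (ls0 tP tQ) A B (H ^ 2) := by
  have e1 := e3_T3 22 d.P B A H
  have e2 := e3_T3 22 d.Q A B H
  unfold DW.LS
  show 550 * (-((25 / 22 : ℝ)⁻¹ * e3 (T3 22 (ofD d.P)) B A H) -
    25 / 22 * e3 (T3 22 (ofD d.Q)) A B H) = _
  have c1 : ((22 : ℕ) : ℤ) = 22 := rfl
  rw [e1, e2, c1, hP, hQ, ls0, v3_add, v3_sc, v3_sc, v3_swp]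
  push_cast
  ring

theorem SS_eq (d : DD) (A B H : ℝ) : d.W.SS A B H = v3 d.Q A B (H ^ 2) := e3_ofD d.Q A B H

/-- symmetrised, with the sign -/
def sym (p : D3) : D3 := sc3 (-1) (add3 p (swp p))

theorem sym_eq (p : D3) (A B C : ℝ) : v3 p A B C + v3 p B A C = -v3 (sym p) A B C := by
  rw [sym, v3_sc, v3_add, v3_swp]
  push_cast
  ring

/-- the shift `A = m + r a`, `B = m' + r b` -/
def shAB (m m' r : ℤ) (p : D3) : D3 := shB m' r (sh3 m r p)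

theorem v3_shAB (m m' r : ℤ) (p : D3) (a b C : ℝ) :
    v3 (shAB m m' r p) a b C = v3 p (m + r * a) (m' + r * b) C := by
  rw [shAB, v3_shB, v3_sh]

/-- the shift `A = m + r a`, `B = m' + r b`, `C = g + q c` -/
def shABC (m m' r g q : ℤ) (p : D3) : D3 := shC g q (shAB m m' r p)

theorem v3_shABC (m m' r g q : ℤ) (p : D3) (a b c : ℝ) :
    v3 (shABC m m' r g q p) a b c = v3 p (m + r * a) (m' + r * b) (g + q * c) := by
  rw [shABC, v3_shC, v3_shAB]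

/-! ### the lines of the lattice -/

/-- `∑ d α s` over the squares -/
def bo1 : List (ℕ × ℤ × List ℤ) → D1
  | [] => []
  | d :: l => add1 (sc1 (Int.mul (Int.ofNat d.1) d.2.1) d.2.2) (bo1 l)

theorem v1_bo1 (x : ℝ) : ∀ l : List (ℕ × ℤ × List ℤ), v1 (bo1 l) x = bo l x
  | [] => rfl
  | d :: l => by
    have e : ((Int.mul (Int.ofNat d.1) d.2.1 : ℤ) : ℝ) = (d.1 : ℝ) * d.2.1 := by
      show ((((d.1 : ℤ) * d.2.1 : ℤ)) : ℝ) = _
      push_cast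
      ring
    have e2 : bo (d :: l) x = (d.1 : ℝ) * (d.2.1 * e1 d.2.2 x) + bo l x := by simp [bo]
    rw [bo1, v1_add, v1_sc, e, v1_e1, e2, v1_bo1 x l]
    ring

/-- `∑ d α s` over the half width squares, `s` with dilation -/
def wa1 : List (ℕ × ℤ × ℤ × List ℤ) → D1
  | [] => []
  | d :: l => add1 (sc1 (Int.mul (Int.ofNat d.1) d.2.1) (dil 4 d.2.2.2)) (wa1 l)

theorem v1_wa1 (x : ℝ) : ∀ l : List (ℕ × ℤ × ℤ × List ℤ), v1 (wa1 l) x =
    (l.map fun d => (d.1 : ℝ) * (d.2.1 * e1 d.2.2.2 (4 * x))).sum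
  | [] => rfl
  | d :: l => by
    have e : ((Int.mul (Int.ofNat d.1) d.2.1 : ℤ) : ℝ) = (d.1 : ℝ) * d.2.1 := by
      show ((((d.1 : ℤ) * d.2.1 : ℤ)) : ℝ) = _
      push_cast
      ring
    rw [wa1, v1_add, v1_sc, e, v1_dil, v1_e1, v1_wa1 x l, List.map_cons, List.sum_cons]
    push_cast
    ring

/-- `550 E1` -/
def lE1 (d : DD) (LL0 LS0 : D3) : D1 :=
  add1 (sc1 550 (add1 (axA LL0) (axB LL0))) (add1 (sc1 (-1) (axA LS0))
    (sc1 550 (add1 d.g (sc1 2 (bo1 d.ps)))))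

/-- `550 E2` -/
def lE2 (d : DD) (LL0 : D3) : D1 := add1 (sc1 1100 (dia3 LL0)) (sc1 1100 (wa1 d.w))

theorem f1_eq (d : DD) (x : ℝ) : d.W.f1 x = v1 (add1 d.g (sc1 2 (bo1 d.ps))) x := by
  unfold DW.f1
  show e3 (ofD (u3 d.g)) x 0 0 + 2 * bo d.ps x = _
  have e : v3 (u3 d.g) x 0 ((0 : ℝ) ^ 2) = v1 d.g x := by
    rw [zero_pow (two_ne_zero), v3_axA]
    congr 1
    show (d.g.map fun c => [[c]]).map (fun q => h1 (h2 q)) = d.g
    rw [List.map_map]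
    exact List.map_id _
  rw [e3_ofD, e, v1_add, v1_sc, v1_bo1]
  push_cast
  ring

theorem E1_eq (d : DD) {LL0 LS0 : D3} (hL : ∀ A B H : ℝ, d.W.LL A B H = v3 LL0 A B (H ^ 2))
    (hS : ∀ A B H : ℝ, 550 * d.W.LS 22 (25 / 22) A B H = -v3 LS0 A B (H ^ 2)) (x : ℝ) :
    550 * d.W.E1 22 (25 / 22) x = v1 (lE1 d LL0 LS0) x := by
  have z : (0 : ℝ) ^ 2 = 0 := by norm_num
  have e1 : d.W.LL x 0 0 = v1 (axA LL0) x := by rw [hL, z, v3_axA]
  have e2 : d.W.LL 0 x 0 = v1 (axB LL0) x := by rw [hL, z, v3_axB]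
  have e3 : 550 * d.W.LS 22 (25 / 22) x 0 0 = -v1 (axA LS0) x := by rw [hS, z, v3_axA]
  have e4 := f1_eq d x
  unfold DW.E1
  rw [e1, e2, e4]
  simp only [lE1, v1_add, v1_sc]
  push_cast
  linarith

theorem E2_eq (d : DD) {LL0 : D3} (hL : ∀ A B H : ℝ, d.W.LL A B H = v3 LL0 A B (H ^ 2)) (x : ℝ) :
    550 * d.W.E2 x = v1 (lE2 d LL0) x := by
  have e1 : d.W.wa x = v1 (wa1 d.w) x := (v1_wa1 x d.w).symm
  unfold DW.E2
  rw [hL, e1, lE2, v1_add, v1_sc, v1_sc, v1_dia3]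
  push_cast
  ring

/-! ### the lines of the dual lattice -/

/-- `550 E1'`; `tg` is `t3 22` of `g` -/
def lF1 (d : DD) (LS0 tg : D3) : D1 :=
  add1 (sc1 550 (add1 (axA d.Q) (axB d.Q))) (add1 (sc1 (-1) (axB LS0)) (sc1 (-484) (axA tg)))

theorem f1'_eq (d : DD) {tg : D3} (hg : t3 22 (u3 d.g) = tg) (x : ℝ) :
    550 * d.W.f1' 22 (25 / 22) x = -484 * v1 (axA tg) x := by
  unfold DW.f1'
  show 550 * (-((25 / 22 : ℝ)⁻¹ * e3 (T3 22 (ofD (u3 d.g))) x 0 0)) = _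
  have e1 := e3_T3 22 (u3 d.g) x 0 0
  have c1 : ((22 : ℕ) : ℤ) = 22 := rfl
  rw [c1, hg, zero_pow two_ne_zero, v3_axA] at e1
  rw [e1]
  ring

theorem F1_eq (d : DD) {LS0 tg : D3}
    (hS : ∀ A B H : ℝ, 550 * d.W.LS 22 (25 / 22) A B H = -v3 LS0 A B (H ^ 2))
    (hg : t3 22 (u3 d.g) = tg) (x : ℝ) :
    550 * d.W.E1' 22 (25 / 22) x = v1 (lF1 d LS0 tg) x := by
  have z : (0 : ℝ) ^ 2 = 0 := by norm_num
  have e1 : d.W.SS x 0 0 = v1 (axA d.Q) x := by rw [SS_eq, z, v3_axA]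
  have e2 : d.W.SS 0 x 0 = v1 (axB d.Q) x := by rw [SS_eq, z, v3_axB]
  have e3 : 550 * d.W.LS 22 (25 / 22) 0 x 0 = -v1 (axB LS0) x := by rw [hS, z, v3_axB]
  have e4 := f1'_eq d hg x
  unfold DW.E1'
  rw [e1, e2]
  simp only [lF1, v1_add, v1_sc]
  push_cast
  linarith

/-- `∑ d β s(2A)` over the half width squares -/
def wb1 : List (ℕ × ℤ × ℤ × List ℤ) → D1
  | [] => []
  | d :: l => add1 (sc1 (Int.mul (Int.ofNat d.1) d.2.2.1) (dil 2 d.2.2.2)) (wb1 l)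

theorem S_dbl (F : ℕ → ℕ → ℕ → ℝ) (s : List ℤ) :
    S F (dbl s) = s1 (fun i => F i 0 0) (dil 2 s) := by
  have key : ∀ (s : List ℤ) (f : ℕ → ℝ) (G : ℕ → ℝ),
      ((List.range s.length).map fun i => ((s.getD i 0 * 2 ^ i : ℤ) : ℝ) * G i).sum =
        s1 G (dil 2 s) := by
    intro s
    induction s with
    | nil => intro f G; rfl
    | cons c s ih =>
      intro f G
      have e1 : s1 G (dil 2 (c :: s)) = c * G 0 + 2 * s1 (fun k => G (k + 1)) (dil 2 s) := by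
        rw [dil, s1, s1_sc]
        push_cast
        ring
      rw [e1, List.length_cons, List.range_succ_eq_map, List.map_cons, List.sum_cons, List.map_map]
      have e2 : ((List.range s.length).map ((fun i => (((c :: s).getD i 0 * 2 ^ i : ℤ) : ℝ) * G i) ∘
          Nat.succ)).sum = 2 * ((List.range s.length).map fun i =>
            ((s.getD i 0 * 2 ^ i : ℤ) : ℝ) * G (i + 1)).sum := by
        rw [← List.sum_map_mul_left]
        congr 1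
        apply List.map_congr_left
        intro i _
        simp only [Function.comp_apply, Nat.succ_eq_add_one, List.getD_cons_succ]
        push_cast
        ring
      rw [e2, ih f (fun k => G (k + 1))]
      simp
  have e : S F (dbl s) = ((List.range s.length).map fun i =>
      ((s.getD i 0 * 2 ^ i : ℤ) : ℝ) * F i 0 0).sum := by
    unfold S dbl
    rw [List.map_map]
    rfl
  rw [e]
  exact key s (fun _ => 0) (fun i => F i 0 0)

theorem T3_dbl (s : List ℤ) (x : ℝ) :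
    e3 (T3 22 (dbl s)) x 0 0 = e3 (T3 22 (ofD (u3 (dil 2 s)))) x 0 0 := by
  rw [e3_eq, S_T3, e3_eq, S_T3, S_dbl, S_ofD, s3_u3]

/-- linearity of the transform of functions of one vector -/
theorem T3_add (p q : D1) (x : ℝ) : e3 (T3 22 (ofD (u3 (add1 p q)))) x 0 0 =
    e3 (T3 22 (ofD (u3 p))) x 0 0 + e3 (T3 22 (ofD (u3 q))) x 0 0 := by
  rw [e3_eq, S_T3, e3_eq, S_T3, e3_eq, S_T3, S_ofD, S_ofD, S_ofD, s3_u3, s3_u3, s3_u3, s1_add]

theorem T3_sc (c : ℤ) (p : D1) (x : ℝ) : e3 (T3 22 (ofD (u3 (sc1 c p)))) x 0 0 =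
    c * e3 (T3 22 (ofD (u3 p))) x 0 0 := by
  rw [e3_eq, S_T3, e3_eq, S_T3, S_ofD, S_ofD, s3_u3, s3_u3, s1_sc]

theorem wb1_eq (x : ℝ) : ∀ l : List (ℕ × ℤ × ℤ × List ℤ),
    e3 (T3 22 (ofD (u3 (wb1 l)))) x 0 0 =
      (l.map fun d => (d.1 : ℝ) * (d.2.2.1 * e3 (T3 22 (dbl d.2.2.2)) x 0 0)).sum
  | [] => rfl
  | d :: l => by
    have e : ((Int.mul (Int.ofNat d.1) d.2.2.1 : ℤ) : ℝ) = (d.1 : ℝ) * d.2.2.1 := by
      show ((((d.1 : ℤ) * d.2.2.1 : ℤ)) : ℝ) = _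
      push_cast
      ring
    rw [wb1, T3_add, T3_sc, e, wb1_eq x l, List.map_cons, List.sum_cons, T3_dbl]
    ring

/-- `550 E2'`; `tw` is `t3 22` of `wb1 w` -/
def lF2 (d : DD) (tw : D3) : D1 := add1 (sc1 1100 (dia3 d.Q)) (sc1 968 (dil 2 (axA tw)))

theorem wb_eq (d : DD) {tw : D3} (hw : t3 22 (u3 (wb1 d.w)) = tw) (x : ℝ) :
    d.W.wb 22 x = v1 (dil 2 (axA tw)) x := by
  have e1 := e3_T3 22 (u3 (wb1 d.w)) (2 * x) 0 0
  have c1 : ((22 : ℕ) : ℤ) = 22 := rfl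
  rw [c1, hw, zero_pow two_ne_zero, v3_axA] at e1
  rw [v1_dil]
  have e2 : ((2 : ℤ) : ℝ) * x = 2 * x := by norm_num
  rw [e2, ← e1, wb1_eq]
  rfl

theorem F2_eq (d : DD) {tw : D3} (hw : t3 22 (u3 (wb1 d.w)) = tw) (x : ℝ) :
    550 * d.W.E2' 22 (25 / 22) x = v1 (lF2 d tw) x := by
  unfold DW.E2'
  rw [SS_eq, wb_eq d hw, lF2, v1_add, v1_sc, v1_sc, v1_dia3]
  push_cast
  ring

/-! ### the constant -/

/-- `1024 c0` -/
def c01 : List (ℕ × ℤ × ℤ × List ℤ) → ℤ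
  | [] => 0
  | d :: l => Int.add (Int.mul (Int.ofNat d.1) (Int.add (Int.mul 1024 (Int.mul d.2.1 d.2.1))
      (Int.add (Int.mul d.2.1 d.2.2.1) (Int.mul 1024 (Int.mul d.2.2.1 d.2.2.1))))) (c01 l)

theorem c01_eq : ∀ l : List (ℕ × ℤ × ℤ × List ℤ), ((c01 l : ℤ) : ℝ) =
    1024 * (l.map fun d => (d.1 : ℝ) *
      ((d.2.1 : ℝ) ^ 2 + 2 * d.2.1 * d.2.2.1 * rr 22 + (d.2.2.1 : ℝ) ^ 2)).sum
  | [] => by simp [c01]
  | d :: l => by
    have e : ((c01 (d :: l) : ℤ) : ℝ) = (d.1 : ℝ) * (1024 * (d.2.1 * d.2.1) + (d.2.1 * d.2.2.1 +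
        1024 * (d.2.2.1 * d.2.2.1))) + ((c01 l : ℤ) : ℝ) := by
      show ((((d.1 : ℤ) * (1024 * (d.2.1 * d.2.1) + (d.2.1 * d.2.2.1 +
        1024 * (d.2.2.1 * d.2.2.1))) + c01 l : ℤ)) : ℝ) = _
      push_cast
      ring
    have r : rr 22 = 1 / 2048 := by unfold rr; norm_num
    rw [e, c01_eq l, List.map_cons, List.sum_cons, r]
    ring

/-- the constants of the squares -/
def bc1 : List (ℕ × ℤ × List ℤ) → ℤ
  | [] => 0
  | d :: l => Int.add (Int.mul (Int.ofNat d.1) (Int.mul d.2.1 d.2.1)) (bc1 l)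

theorem bc1_eq : ∀ l : List (ℕ × ℤ × List ℤ), ((bc1 l : ℤ) : ℝ) = bc l
  | [] => by simp [bc1, bc]
  | d :: l => by
    have e : ((bc1 (d :: l) : ℤ) : ℝ) = (d.1 : ℝ) * (d.2.1 * d.2.1) + ((bc1 l : ℤ) : ℝ) := by
      show ((((d.1 : ℤ) * (d.2.1 * d.2.1) + bc1 l : ℤ)) : ℝ) = _
      push_cast
      ring
    have e2 : bc (d :: l) = (d.1 : ℝ) * (d.2.1 : ℝ) ^ 2 + bc l := by simp [bc]
    rw [e, bc1_eq l, e2]
    ring

/-- `550 * 1024` times the constant -/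
def cst1 (d : DD) (LL0 LS0 tg tw : D3) : ℤ :=
  Int.add (Int.mul 1024 (Int.add (Int.mul 550 (Int.add (h1 (axA LL0)) (h1 (axA d.Q))))
    (Int.add (Int.neg (h1 (axA LS0))) (Int.add
      (Int.mul 550 (h1 (add1 d.g (sc1 2 (bo1 d.ps))))) (Int.add (Int.mul (-484) (h1 (axA tg)))
        (Int.add (Int.mul 1100 (h1 (wa1 d.w))) (Int.add (Int.mul 968 (h1 (dil 2 (axA tw))))
          (Int.mul 550 (bc1 d.ps)))))))))
    (Int.mul 550 (c01 d.w))

theorem cst_eq (d : DD) {LL0 LS0 tg tw : D3}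
    (hL : ∀ A B H : ℝ, d.W.LL A B H = v3 LL0 A B (H ^ 2))
    (hS : ∀ A B H : ℝ, 550 * d.W.LS 22 (25 / 22) A B H = -v3 LS0 A B (H ^ 2))
    (hg : t3 22 (u3 d.g) = tg) (hw : t3 22 (u3 (wb1 d.w)) = tw) :
    550 * 1024 * d.W.cst 22 (25 / 22) = cst1 d LL0 LS0 tg tw := by
  have z : (0 : ℝ) ^ 2 = 0 := by norm_num
  have e1 : d.W.LL 0 0 0 = h1 (axA LL0) := by rw [hL, z, v3_000]
  have e2 : d.W.SS 0 0 0 = h1 (axA d.Q) := by rw [SS_eq, z, v3_000]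
  have e3 : 550 * d.W.LS 22 (25 / 22) 0 0 0 = -(h1 (axA LS0) : ℝ) := by rw [hS, z, v3_000]
  have e4 : d.W.f1 0 = h1 (add1 d.g (sc1 2 (bo1 d.ps))) := by rw [f1_eq, v1_zero]
  have e5 : 550 * d.W.f1' 22 (25 / 22) 0 = -484 * (h1 (axA tg) : ℝ) := by rw [f1'_eq d hg, v1_zero]
  have e6 : d.W.wa 0 = h1 (wa1 d.w) := by
    have : d.W.wa 0 = v1 (wa1 d.w) 0 := (v1_wa1 0 d.w).symm
    rw [this, v1_zero]
  have e7 : d.W.wb 22 0 = h1 (dil 2 (axA tw)) := by rw [wb_eq d hw, v1_zero]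
  have e8 : 1024 * d.W.c0 22 = ((c01 d.w : ℤ) : ℝ) := (c01_eq d.w).symm
  have e9 : bc d.W.ps = ((bc1 d.ps : ℤ) : ℝ) := (bc1_eq d.ps).symm
  have e : ((cst1 d LL0 LS0 tg tw : ℤ) : ℝ) = 1024 * (550 * ((h1 (axA LL0) : ℝ) + h1 (axA d.Q)) +
      (-(h1 (axA LS0) : ℝ) + (550 * (h1 (add1 d.g (sc1 2 (bo1 d.ps))) : ℝ) +
        (-484 * (h1 (axA tg) : ℝ) + (1100 * (h1 (wa1 d.w) : ℝ) +
          (968 * (h1 (dil 2 (axA tw)) : ℝ) + 550 * (bc1 d.ps : ℝ))))))) + 550 * (c01 d.w : ℝ) := by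
    show (((1024 * (550 * (h1 (axA LL0) + h1 (axA d.Q)) +
      (-h1 (axA LS0) + (550 * h1 (add1 d.g (sc1 2 (bo1 d.ps))) +
        (-484 * h1 (axA tg) + (1100 * h1 (wa1 d.w) +
          (968 * h1 (dil 2 (axA tw)) + 550 * bc1 d.ps)))))) + 550 * c01 d.w : ℤ)) : ℝ) = _
    push_cast
    ring
  rw [e]
  unfold DW.cst
  rw [e1, e2, e4, e6, e7, e9]
  linarith

end Pool.Agent.SOS.H57
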