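import Pool.Agent.Helper57_SOS.Blk3
import Pool.Agent.Helper57_SOS.Lin

/-!
# Assembly of a certificate (helper57, for MP_37fa12_co)

`certw`: `CertW 22 (25/22) D 23 5` from the outputs of the checkers.
-/

set_option autoImplicit false

namespace Pool.Agent.SOS.H57

open Pool.Agent.SOS Pool.Agent.LPK Pool.Agent.LPV

/-- the parameters for pairs of vectors of the lattice -/
def pLL : Par := ⟨23, 23, 16, 0, 256⟩
/-- the parameters for pairs of vectors of the dual lattice -/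
def pSS : Par := ⟨5, 5, 16, 0, 256⟩
/-- the parameters for mixed pairs -/
def pLS : Par := ⟨23, 5, 16, 1421, 256⟩

/-! ### harmonic kernels -/

def hzJ (n l : ℤ) (z : List ℤ) : ℕ → Bool
  | 0 => true
  | Nat.succ j => decide (z.getD (j + 1) 0 * (2 * ((j : ℤ) + 1) * (n + 2 * l - 2 * j - 4)) +
      z.getD j 0 * ((l - 2 * j) * (l - 2 * j - 1)) = 0) && hzJ n l z j

theorem hzJ_spec {n l : ℤ} {z : List ℤ} : ∀ {N : ℕ}, hzJ n l z N = true → ∀ j < N,
    z.getD (j + 1) 0 * (2 * ((j : ℤ) + 1) * (n + 2 * l - 2 * j - 4)) +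
      z.getD j 0 * ((l - 2 * j) * (l - 2 * j - 1)) = 0
  | 0, _, j, hj => absurd hj (Nat.not_lt_zero j)
  | Nat.succ N, h, j, hj => by
    simp only [hzJ, Bool.and_eq_true, decide_eq_true_eq] at h
    rcases Nat.lt_succ_iff_lt_or_eq.1 hj with hj | rfl
    · exact hzJ_spec h.2 j hj
    · exact h.1

/-- all kernels are harmonic -/
def hzOk : List (ℕ × List ℤ × List (ℕ × List ℤ)) → Bool
  | [] => true
  | e :: l => (Nat.beq (e.1 % 2) 0 && (decide (0 ≤ e.2.1.getD 0 0) &&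
      hzJ 22 (e.1 : ℤ) e.2.1 (e.1 / 2))) && hzOk l

theorem hzOk_spec : ∀ {l : List (ℕ × List ℤ × List (ℕ × List ℤ))}, hzOk l = true →
    ∀ e ∈ l, Hz 22 e.1 e.2.1
  | [], _, e, he => absurd he List.not_mem_nil
  | x :: l, h, e, he => by
    simp only [hzOk, Bool.and_eq_true, decide_eq_true_eq] at h
    rcases List.mem_cons.1 he with rfl | he
    · obtain ⟨⟨h1, h2, h3⟩, _⟩ := h
      refine ⟨Nat.eq_of_beq_eq_true h1, h2, fun j hj => ?_⟩
      have := hzJ_spec h3 j hj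
      push_cast at this ⊢
      exact this
    · exact hzOk_spec h.2 e he

/-! ### the assembly -/

/-- **the certificate from the outputs of the checkers** -/
theorem certw (d : DD) {LL0 lsL tg tw : D3} {TLL TSS TLS : List Tm} {L1 L2 F1 F2 : D1}
    (hLL : ∀ A B H : ℝ, d.W.LL A B H = v3 LL0 A B (H ^ 2))
    (hls : ls0 (t3 22 d.P) (t3 22 d.Q) = lsL)
    (hg : t3 22 (u3 d.g) = tg) (hw : t3 22 (u3 (wb1 d.w)) = tw)
    (eLL : ∀ a b c : ℝ, v3 (shABC 23 23 16 0 256 (sym LL0)) a b c = ev TLL a b c)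
    (eSS : ∀ a b c : ℝ, v3 (shABC 5 5 16 0 256 (sym d.Q)) a b c = ev TSS a b c)
    (eLS : ∀ a b c : ℝ, v3 (shABC 23 5 16 1421 256 lsL) a b c = ev TLS a b c)
    (pll : ∀ a b c : ℝ, 0 ≤ a → 0 ≤ b → 0 ≤ c → 0 ≤ ev pLL.D a b c →
      4 * ((pLL.q : ℝ) * c) ≤ ev pLL.u a b c ^ 2 → 0 ≤ ev TLL a b c)
    (pss : ∀ a b c : ℝ, 0 ≤ a → 0 ≤ b → 0 ≤ c → 0 ≤ ev pSS.D a b c →
      4 * ((pSS.q : ℝ) * c) ≤ ev pSS.u a b c ^ 2 → 0 ≤ ev TSS a b c)
    (pls : ∀ a b c : ℝ, 0 ≤ a → 0 ≤ b → 0 ≤ c → 0 ≤ ev pLS.D a b c → 0 ≤ ev TLS a b c)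
    (mix : ∀ k : ℕ, k < 6 → ∀ A B : ℝ, 23 ≤ A → 5 ≤ B → (2 * Real.pi * k) ^ 2 ≤ A * B →
      0 ≤ v3 lsL A B ((2 * Real.pi * k) ^ 2))
    (eL1 : lE1 d LL0 lsL = L1) (eL2 : lE2 d LL0 = L2) (eF1 : lF1 d lsL tg = F1)
    (eF2 : lF2 d tw = F2)
    (l1 : ∀ a : ℝ, 23 ≤ a → v1 L1 a + Real.exp (-a / 2) * v1 L2 a ≤ 0)
    (l3 : ∀ a : ℝ, 5 ≤ a → v1 F1 a + Real.exp (-a / 2) * v1 F2 a ≤ 0)
    (hz : hzOk d.pl = true) (hc : cst1 d LL0 lsL tg tw < 0) :
    CertW 22 (25 / 22) d.W 23 5 := by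
  have hS : ∀ A B H : ℝ, 550 * d.W.LS 22 (25 / 22) A B H = -v3 lsL A B (H ^ 2) := by
    intro A B H
    rw [← hls]
    exact LS_eq d rfl rfl A B H
  refine
    { ev := ⟨11, rfl⟩, one := by norm_num, kap := by norm_num, pos := by norm_num,
      nng := by norm_num, evP := ev_ofD d.P, evQ := ev_ofD d.Q, evg := evg_u3 d.g,
      hz := hzOk_spec hz, hw := fun e he => absurd he List.not_mem_nil, cst := ?_, ll := ?_,
      ss := ?_, mx := ?_, l1 := ?_, l3 := ?_ }
  · have e := cst_eq d hLL hS hg hw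
    have h : ((cst1 d LL0 lsL tg tw : ℤ) : ℝ) < 0 := by exact_mod_cast hc
    nlinarith
  · intro A B H hA hB hH hAB hC
    have key := reg (p := pLL) rfl (by decide) rfl rfl pll A B H (by simpa [pLL] using hA)
      (by simpa [pLL] using hB) hH (by simpa [pLL] using hAB) hC
    rw [← eLL, v3_shABC] at key
    have c1 : ((pLL.m : ℕ) : ℝ) = 23 := by norm_num [pLL]
    have c2 : ((pLL.r : ℕ) : ℝ) = 16 := by norm_num [pLL]
    have c3 : ((pLL.q : ℕ) : ℝ) = 256 := by norm_num [pLL]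
    rw [c1, c2, c3] at key
    push_cast at key
    have a1 : (23 : ℝ) + 16 * ((A - 23) / 16) = A := by ring
    have a2 : (23 : ℝ) + 16 * ((B - 23) / 16) = B := by ring
    have a3 : (0 : ℝ) + 256 * (H ^ 2 / 256) = H ^ 2 := by ring
    rw [a1, a2, a3] at key
    have e := sym_eq LL0 A B (H ^ 2)
    rw [hLL, hLL]
    linarith
  · intro A B H hA hB hH hAB hC
    have key := reg (p := pSS) rfl (by decide) rfl rfl pss A B H (by simpa [pSS] using hA)
      (by simpa [pSS] using hB) hH (by simpa [pSS] using hAB) hC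
    rw [← eSS, v3_shABC] at key
    have c1 : ((pSS.m : ℕ) : ℝ) = 5 := by norm_num [pSS]
    have c2 : ((pSS.r : ℕ) : ℝ) = 16 := by norm_num [pSS]
    have c3 : ((pSS.q : ℕ) : ℝ) = 256 := by norm_num [pSS]
    rw [c1, c2, c3] at key
    push_cast at key
    have a1 : (5 : ℝ) + 16 * ((A - 5) / 16) = A := by ring
    have a2 : (5 : ℝ) + 16 * ((B - 5) / 16) = B := by ring
    have a3 : (0 : ℝ) + 256 * (H ^ 2 / 256) = H ^ 2 := by ring
    rw [a1, a2, a3] at key
    have e := sym_eq d.Q A B (H ^ 2)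
    rw [SS_eq, SS_eq]
    linarith
  · intro A B k hA hB hk
    have e := hS A B (2 * Real.pi * k)
    have key : 0 ≤ v3 lsL A B ((2 * Real.pi * k) ^ 2) := by
      rcases Nat.lt_or_ge k 6 with h | h
      · exact mix k h A B hA hB hk
      · have h6 : (1421 : ℝ) ≤ (2 * Real.pi * k) ^ 2 := by
          have hk6 : (6 : ℝ) ≤ k := by exact_mod_cast h
          have hp : (3.1415 : ℝ) < Real.pi := Real.pi_gt_d4
          have h7 : (2 * 3.1415 * 6 : ℝ) ≤ 2 * Real.pi * k := by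
            have : (2 * 3.1415 : ℝ) ≤ 2 * Real.pi := by linarith
            nlinarith
          have h8 : (2 * 3.1415 * 6 : ℝ) ^ 2 ≤ (2 * Real.pi * k) ^ 2 :=
            pow_le_pow_left₀ (by norm_num) h7 2
          have h9 : (1421 : ℝ) ≤ (2 * 3.1415 * 6 : ℝ) ^ 2 := by norm_num
          exact h9.trans h8
        have key := regM (p := pLS) (by decide) (by decide) pls A B ((2 * Real.pi * k) ^ 2)
          (by simpa [pLS] using hA) (by simpa [pLS] using hB) (by simpa [pLS] using h6) hk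
        rw [← eLS, v3_shABC] at key
        have c1 : ((pLS.m : ℕ) : ℝ) = 23 := by norm_num [pLS]
        have c1' : ((pLS.m' : ℕ) : ℝ) = 5 := by norm_num [pLS]
        have c2 : ((pLS.r : ℕ) : ℝ) = 16 := by norm_num [pLS]
        have c3 : ((pLS.q : ℕ) : ℝ) = 256 := by norm_num [pLS]
        have c4 : ((pLS.g : ℕ) : ℝ) = 1421 := by norm_num [pLS]
        rw [c1, c1', c2, c3, c4] at key
        push_cast at key
        have a1 : (23 : ℝ) + 16 * ((A - 23) / 16) = A := by ring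
        have a2 : (5 : ℝ) + 16 * ((B - 5) / 16) = B := by ring
        have a3 : (1421 : ℝ) + 256 * (((2 * Real.pi * k) ^ 2 - 1421) / 256) =
          (2 * Real.pi * k) ^ 2 := by ring
        rw [a1, a2, a3] at key
        exact key
    linarith
  · intro a ha
    have e1 := E1_eq d hLL hS a
    have e2 := E2_eq d hLL a
    have h := l1 a ha
    rw [← eL1, ← eL2, ← e1, ← e2] at h
    linarith
  · intro a ha
    have e1 := F1_eq d hS hg a
    have e2 := F2_eq d hw a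
    have h := l3 a ha
    rw [← eF1, ← eF2, ← e1, ← e2] at h
    linarith

end Pool.Agent.SOS.H57
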