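import Pool.Agent.Helper49_SOS.Dense
import Pool.Agent.Helper27_KRO.Pair

/-!
# A block in three variables from the outputs of the checkers (helper57, for MP_37fa12_co)

`tm3`: the terms of a dense polynomial.  `mg`: the multipliers `s a^i b^j c^k D^e C^f` with
`D = A B - C`, `A = m + r a`, `B = m' + r b`, `C = g + q c`.  `pos3`: a polynomial `T` is
nonnegative if `s T - PP` passes `chk` and the literal `PP` passes `chkP`.
-/

set_option autoImplicit false

namespace Pool.Agent.SOS.H57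

open Pool.Agent.SOS Pool.Agent.H27KRO

/-! ### terms of a dense polynomial -/

def tmC (i j : ℕ) : ℕ → D1 → List Tm
  | _, [] => []
  | k, c :: p => (c, i, j, k) :: tmC i j (Nat.succ k) p

def tmB (i : ℕ) : ℕ → D2 → List Tm
  | _, [] => []
  | j, r :: p => tmC i j 0 r ++ tmB i (Nat.succ j) p

def tmA : ℕ → D3 → List Tm
  | _, [] => []
  | i, r :: p => tmB i 0 r ++ tmA (Nat.succ i) p

/-- the terms of a dense polynomial -/
def tm3 (p : D3) : List Tm := tmA 0 p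

theorem ev_tmC (i j : ℕ) (a b c : ℝ) : ∀ (p : D1) (k : ℕ),
    ev (tmC i j k p) a b c = a ^ i * (b ^ j * (c ^ k * v1 p c))
  | [], k => by simp [tmC, ev_nil, v1_nil]
  | x :: p, k => by
    rw [tmC, ev_cons, ev_tmC i j a b c p, v1_cons, Nat.succ_eq_add_one]
    ring

theorem ev_tmB (i : ℕ) (a b c : ℝ) : ∀ (p : D2) (j : ℕ),
    ev (tmB i j p) a b c = a ^ i * (b ^ j * v2 p b c)
  | [], j => by simp [tmB, ev_nil, v2_nil]
  | r :: p, j => by
    rw [tmB, ev_append, ev_tmC, ev_tmB i a b c p, v2_cons, Nat.succ_eq_add_one, pow_zero]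
    ring

theorem ev_tmA (a b c : ℝ) : ∀ (p : D3) (i : ℕ), ev (tmA i p) a b c = a ^ i * v3 p a b c
  | [], i => by simp [tmA, ev_nil, v3_nil]
  | r :: p, i => by
    rw [tmA, ev_append, ev_tmB, ev_tmA a b c p, v3_cons, Nat.succ_eq_add_one, pow_zero]
    ring

theorem ev_tm3 (p : D3) (a b c : ℝ) : ev (tm3 p) a b c = v3 p a b c := by
  rw [tm3, ev_tmA, pow_zero, one_mul]

/-- multiplication by a natural number -/
def scl (s : ℕ) : List Tm → List Tm
  | [] => []
  | t :: p => (Int.mul (Int.ofNat s) t.1, t.2) :: scl s p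

theorem ev_scl (s : ℕ) (a b c : ℝ) : ∀ p : List Tm, ev (scl s p) a b c = s * ev p a b c
  | [] => by simp [scl, ev_nil]
  | t :: p => by
    have e : ((Int.mul (Int.ofNat s) t.1 : ℤ) : ℝ) = (s : ℝ) * (t.1 : ℝ) := by
      show ((((s : ℤ) * t.1 : ℤ)) : ℝ) = _
      push_cast
      ring
    rw [scl, ev_cons, ev_scl s a b c p, ev_cons, e]
    ring

/-! ### equality of term lists -/

def eqI : ℤ → ℤ → Bool
  | Int.ofNat a, Int.ofNat b => Nat.beq a b
  | Int.negSucc a, Int.negSucc b => Nat.beq a b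
  | _, _ => false

theorem eqI_eq : ∀ {x y : ℤ}, eqI x y = true → x = y
  | Int.ofNat a, Int.ofNat b, h => by rw [Nat.eq_of_beq_eq_true h]
  | Int.negSucc a, Int.negSucc b, h => by rw [Nat.eq_of_beq_eq_true h]
  | Int.ofNat _, Int.negSucc _, h => by simp [eqI] at h
  | Int.negSucc _, Int.ofNat _, h => by simp [eqI] at h

def eqT (x y : Tm) : Bool :=
  eqI x.1 y.1 && (Nat.beq x.2.1 y.2.1 && (Nat.beq x.2.2.1 y.2.2.1 && Nat.beq x.2.2.2 y.2.2.2))

theorem eqT_eq {x y : Tm} (h : eqT x y = true) : x = y := by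
  simp only [eqT, Bool.and_eq_true] at h
  obtain ⟨h1, h2, h3, h4⟩ := h
  exact Prod.ext (eqI_eq h1) (Prod.ext (Nat.eq_of_beq_eq_true h2)
    (Prod.ext (Nat.eq_of_beq_eq_true h3) (Nat.eq_of_beq_eq_true h4)))

def eqL : List Tm → List Tm → Bool
  | [], [] => true
  | x :: p, y :: q => eqT x y && eqL p q
  | _, _ => false

theorem eqL_eq : ∀ {p q : List Tm}, eqL p q = true → p = q
  | [], [], _ => rfl
  | [], _ :: _, h => by simp [eqL] at h
  | _ :: _, [], h => by simp [eqL] at h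
  | x :: p, y :: q, h => by
    simp only [eqL, Bool.and_eq_true] at h
    rw [eqT_eq h.1, eqL_eq h.2]

/-! ### the parameters and the multipliers -/

/-- the parameters: `A = m + r a`, `B = m' + r b`, `C = g + q c` -/
structure Par where
  m : ℕ
  m' : ℕ
  r : ℕ
  g : ℕ
  q : ℕ

/-- `A B - C` -/
def Par.D (p : Par) : List Tm :=
  [(Int.ofNat (p.m * p.m') - Int.ofNat p.g, 0, 0, 0), (Int.ofNat (p.r * p.m'), 1, 0, 0),
    (Int.ofNat (p.m * p.r), 0, 1, 0), (Int.ofNat (p.r * p.r), 1, 1, 0), (-Int.ofNat p.q, 0, 0, 1)]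

/-- `C` -/
def Par.C (p : Par) : List Tm := [(Int.ofNat p.g, 0, 0, 0), (Int.ofNat p.q, 0, 0, 1)]

/-- `u = A + B - m` for `m = m'` -/
def Par.u (p : Par) : List Tm :=
  [(Int.ofNat p.m, 0, 0, 0), (Int.ofNat p.r, 1, 0, 0), (Int.ofNat p.r, 0, 1, 0)]

theorem ev_D (p : Par) (a b c : ℝ) : ev p.D a b c =
    ((p.m : ℝ) + p.r * a) * ((p.m' : ℝ) + p.r * b) - ((p.g : ℝ) + p.q * c) := by
  simp only [Par.D, ev_cons, ev_nil, Int.ofNat_eq_natCast]
  push_cast
  ring

theorem ev_C (p : Par) (a b c : ℝ) : ev p.C a b c = (p.g : ℝ) + p.q * c := by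
  simp only [Par.C, ev_cons, ev_nil, Int.ofNat_eq_natCast]
  push_cast
  ring

theorem ev_u (p : Par) (a b c : ℝ) : ev p.u a b c = (p.m : ℝ) + p.r * a + p.r * b := by
  simp only [Par.u, ev_cons, ev_nil, Int.ofNat_eq_natCast]
  push_cast
  ring

/-- the index of a multiplier: `s a^i b^j c^k D^e C^f` -/
structure Ix where
  s : ℕ
  i : ℕ
  j : ℕ
  k : ℕ
  e : Bool
  f : Bool

/-- the multiplier -/
def mg (p : Par) (x : Ix) : List Tm :=
  scl x.s (mul [((1 : ℤ), x.i, x.j, x.k)]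
    (bif x.e then (bif x.f then mul p.D p.C else p.D)
      else (bif x.f then p.C else [((1 : ℤ), 0, 0, 0)])))

theorem mg_nonneg {p : Par} {a b c : ℝ} (ha : 0 ≤ a) (hb : 0 ≤ b) (hc : 0 ≤ c)
    (hD : 0 ≤ ev p.D a b c) (x : Ix) : 0 ≤ ev (mg p x) a b c := by
  have hC : 0 ≤ ev p.C a b c := by rw [ev_C]; positivity
  have h1 : 0 ≤ ev [((1 : ℤ), x.i, x.j, x.k)] a b c := by
    simp only [ev_cons, ev_nil]
    positivity
  unfold mg
  rw [ev_scl, ev_mul]
  refine mul_nonneg (Nat.cast_nonneg _) (mul_nonneg h1 ?_)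
  cases x.e <;> cases x.f
  · simp [ev_cons, ev_nil]
  · exact hC
  · exact hD
  · show 0 ≤ ev (mul p.D p.C) a b c
    rw [ev_mul]
    exact mul_nonneg hD hC

/-- the multipliers of the blocks are the given ones -/
def gsOk (p : Par) : List Blk → List Ix → Bool
  | [], _ => true
  | b :: l, x :: xs => eqL b.g (mg p x) && gsOk p l xs
  | _ :: _, [] => false

theorem gsOk_nonneg {p : Par} {a b c : ℝ} (ha : 0 ≤ a) (hb : 0 ≤ b) (hc : 0 ≤ c)
    (hD : 0 ≤ ev p.D a b c) : ∀ (bs : List Blk) (xs : List Ix), gsOk p bs xs = true →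
      ∀ y ∈ bs, 0 ≤ ev y.g a b c
  | [], _, _, y, hy => absurd hy List.not_mem_nil
  | _ :: _, [], h, y, hy => by simp [gsOk] at h
  | z :: l, x :: xs, h, y, hy => by
    simp only [gsOk, Bool.and_eq_true] at h
    rcases List.mem_cons.1 hy with rfl | hy
    · rw [eqL_eq h.1]
      exact mg_nonneg ha hb hc hD x
    · exact gsOk_nonneg ha hb hc hD l xs h.2 y hy

/-- the polynomials of a pair block with the multiplier `s a^i b^j c^k` -/
def pge (p : Par) (x : Ix) : List Tm := scl x.s (mul [((2 : ℤ), x.i, x.j, x.k)] p.u)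
def pgo (p : Par) (x : Ix) : List Tm :=
  scl x.s (mul [(Int.ofNat (2 * p.q), x.i, x.j, Nat.succ x.k)] p.u)
def pgx (p : Par) (x : Ix) : List Tm :=
  scl x.s [(Int.ofNat (8 * p.q), x.i, x.j, Nat.succ x.k)]

/-- the polynomials of the pair blocks are the given ones -/
def psOk (p : Par) : List PB → List Ix → Bool
  | [], _ => true
  | b :: l, x :: xs => (eqL b.ge (pge p x) && (eqL b.go (pgo p x) && eqL b.gx (pgx p x))) &&
      psOk p l xs
  | _ :: _, [] => false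

theorem psOk_cond {p : Par} {a b c : ℝ} (ha : 0 ≤ a) (hb : 0 ≤ b) (hc : 0 ≤ c)
    (hu : 4 * ((p.q : ℝ) * c) ≤ ev p.u a b c ^ 2) : ∀ (bs : List PB) (xs : List Ix),
      psOk p bs xs = true → ∀ y ∈ bs, 0 ≤ ev y.ge a b c ∧ 0 ≤ ev y.go a b c ∧
        (ev y.gx a b c) ^ 2 ≤ 4 * ev y.ge a b c * ev y.go a b c
  | [], _, _, y, hy => absurd hy List.not_mem_nil
  | _ :: _, [], h, y, hy => by simp [psOk] at h
  | z :: l, x :: xs, h, y, hy => by
    simp only [psOk, Bool.and_eq_true] at h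
    rcases List.mem_cons.1 hy with rfl | hy
    · obtain ⟨⟨h1, h2, h3⟩, _⟩ := h
      have hu0 : 0 ≤ ev p.u a b c := by rw [ev_u]; positivity
      have hm : 0 ≤ (x.s : ℝ) * (a ^ x.i * (b ^ x.j * c ^ x.k)) := by positivity
      have hq : 0 ≤ (p.q : ℝ) * c := by positivity
      have key := flip_cond hu0 hq hm hu
      have e1 : ev y.ge a b c =
          (x.s : ℝ) * (a ^ x.i * (b ^ x.j * c ^ x.k)) * (2 * ev p.u a b c) := by
        rw [eqL_eq h1, pge, ev_scl, ev_mul]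
        simp only [ev_cons, ev_nil]
        push_cast
        ring
      have e2 : ev y.go a b c =
          (x.s : ℝ) * (a ^ x.i * (b ^ x.j * c ^ x.k)) *
            (2 * ev p.u a b c * ((p.q : ℝ) * c)) := by
        rw [eqL_eq h2, pgo, ev_scl, ev_mul]
        simp only [ev_cons, ev_nil, Int.ofNat_eq_natCast, Nat.succ_eq_add_one]
        push_cast
        ring
      have e3 : ev y.gx a b c =
          (x.s : ℝ) * (a ^ x.i * (b ^ x.j * c ^ x.k)) * (8 * ((p.q : ℝ) * c)) := by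
        rw [eqL_eq h3, pgx, ev_scl]
        simp only [ev_cons, ev_nil, Int.ofNat_eq_natCast, Nat.succ_eq_add_one]
        push_cast
        ring
      rw [e1, e2, e3]
      exact key
    · exact psOk_cond ha hb hc hu l xs h.2 y hy

/-- **a block without a pair part** -/
theorem pos3' {p : Par} {T : List Tm} {K d1 d2 H β E D : ℕ} {bs : List Blk} {xs : List Ix}
    (hchk : chk K d1 d2 H β E D T bs = true) (hS : ∀ y ∈ bs, SmOk H y)
    (hg : gsOk p bs xs = true) (a b c : ℝ) (ha : 0 ≤ a) (hb : 0 ≤ b) (hc : 0 ≤ c)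
    (hD : 0 ≤ ev p.D a b c) : 0 ≤ ev T a b c :=
  chk_sound hchk hS a b c ha hb hc (gsOk_nonneg ha hb hc hD bs xs hg)

/-- **a block with a pair part `PP`** -/
theorem pos3 {p : Par} {T : List Tm} {s K d1 d2 H β E D K' d1' d2' H' : ℕ} {PP : List Tm}
    {bs : List Blk} {xs : List Ix} {pbs : List PB} {ys : List Ix}
    (hs : Nat.ble 1 s = true)
    (hchk : chk K d1 d2 H β E D (scl s T ++ neg PP) bs = true) (hS : ∀ y ∈ bs, SmOk H y)
    (hg : gsOk p bs xs = true)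
    (hchkP : chkP K' d1' d2' H' PP pbs = true) (hSP : ∀ y ∈ pbs, PBOk H' y)
    (hgp : psOk p pbs ys = true) (a b c : ℝ) (ha : 0 ≤ a) (hb : 0 ≤ b) (hc : 0 ≤ c)
    (hD : 0 ≤ ev p.D a b c) (hu : 4 * ((p.q : ℝ) * c) ≤ ev p.u a b c ^ 2) : 0 ≤ ev T a b c := by
  have h := chk_sound hchk hS a b c ha hb hc (gsOk_nonneg ha hb hc hD bs xs hg)
  have h2 := chkP_sound hchkP hSP a b c ha hb hc (psOk_cond ha hb hc hu pbs ys hgp)
  rw [ev_append, ev_neg, ev_scl] at h
  have hs0 : (0 : ℝ) < s := by exact_mod_cast Nat.le_of_ble_eq_true hs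
  exact nonneg_of_mul_nonneg_right (by linarith) hs0

/-! ### the regions -/

/-- **pairs of vectors**: `m = m'`, `g = 0`, `q = r²` -/
theorem reg {p : Par} (hm : p.m = p.m') (hr : 0 < p.r) (hg : p.g = 0) (hq : p.q = p.r * p.r)
    {T : List Tm} (h : ∀ a b c : ℝ, 0 ≤ a → 0 ≤ b → 0 ≤ c → 0 ≤ ev p.D a b c →
      4 * ((p.q : ℝ) * c) ≤ ev p.u a b c ^ 2 → 0 ≤ ev T a b c)
    (A B H : ℝ) (hA : (p.m : ℝ) ≤ A) (hB : (p.m : ℝ) ≤ B) (hH : 0 ≤ H)
    (hAB : (p.m : ℝ) ≤ A + B - 2 * H) (hc : H ^ 2 ≤ A * B) :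
    0 ≤ ev T ((A - p.m) / p.r) ((B - p.m) / p.r) (H ^ 2 / p.q) := by
  have hr0 : (0 : ℝ) < p.r := by exact_mod_cast hr
  have hq0 : (p.q : ℝ) = p.r * p.r := by rw [hq]; push_cast; ring
  have hq1 : (0 : ℝ) < p.q := by rw [hq0]; positivity
  have e1 : (p.m : ℝ) + p.r * ((A - p.m) / p.r) = A := by field_simp; ring
  have e2 : (p.m : ℝ) + p.r * ((B - p.m) / p.r) = B := by field_simp; ring
  have e3 : (p.q : ℝ) * (H ^ 2 / p.q) = H ^ 2 := by field_simp
  refine h _ _ _ (div_nonneg (by linarith) hr0.le) (div_nonneg (by linarith) hr0.le)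
    (by positivity) ?_ ?_
  · rw [ev_D, ← hm, e1, e2, e3, hg]
    push_cast
    linarith
  · have e4 : (p.m : ℝ) + p.r * ((A - p.m) / p.r) + p.r * ((B - p.m) / p.r) = A + B - p.m := by
      field_simp
      ring
    rw [ev_u, e4, e3]
    nlinarith

/-- **mixed pairs** with `C = H² ≥ g` -/
theorem regM {p : Par} (hr : 0 < p.r) (hq : 0 < p.q)
    {T : List Tm} (h : ∀ a b c : ℝ, 0 ≤ a → 0 ≤ b → 0 ≤ c → 0 ≤ ev p.D a b c → 0 ≤ ev T a b c)
    (A B C : ℝ) (hA : (p.m : ℝ) ≤ A) (hB : (p.m' : ℝ) ≤ B) (hC : (p.g : ℝ) ≤ C)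
    (hc : C ≤ A * B) :
    0 ≤ ev T ((A - p.m) / p.r) ((B - p.m') / p.r) ((C - p.g) / p.q) := by
  have hr0 : (0 : ℝ) < p.r := by exact_mod_cast hr
  have hq1 : (0 : ℝ) < p.q := by exact_mod_cast hq
  have e1 : (p.m : ℝ) + p.r * ((A - p.m) / p.r) = A := by field_simp; ring
  have e2 : (p.m' : ℝ) + p.r * ((B - p.m') / p.r) = B := by field_simp; ring
  have e3 : (p.g : ℝ) + p.q * ((C - p.g) / p.q) = C := by field_simp; ring
  refine h _ _ _ (div_nonneg (by linarith) hr0.le) (div_nonneg (by linarith) hr0.le)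
    (div_nonneg (by linarith) hq1.le) ?_
  rw [ev_D, e1, e2, e3]
  linarith

end Pool.Agent.SOS.H57
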