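import Pool.Agent.Helper57_SOS.Lin
import Pool.Agent.Helper49_SOS.Dat22

/-!
# The data of the certificate for n = 22 (helper57, for MP_37fa12_co)
-/

set_option autoImplicit false

namespace Pool.Agent.SOS.H57

open Pool.Agent.SOS

/-- the data -/
def d22 : DD := ⟨N22.Pd, N22.Qd, N22.gd, N22.wd, N22.psd, N22.pld⟩

end Pool.Agent.SOS.H57
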