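import Pool.Agent.Helper57_SOS.Asm2
import Pool.Agent.Helper57_SOS.D22
import Pool.Agent.Helper39_SOS.LL0
import Pool.Agent.Helper29_LPV.LsX
import Pool.Agent.Helper7_KRO.LData

/-!
# The conditions on lines, the kernels and the constant, n = 22 (helper57, for MP_37fa12_co)
-/

set_option autoImplicit false

namespace Pool.Agent.SOS.H57

open Pool.Agent.SOS

theorem c22_E1 : H4.eq1 (lE1 d22 N22.LL0 H29.lsX) Helper7_KRO.lE1 = true := by decide +kernel

theorem c22_E2 : H4.eq1 (lE2 d22 N22.LL0) Helper7_KRO.lE2 = true := by decide +kernel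

theorem c22_F1 : H4.eq1 (lF1 d22 H29.lsX (t3 22 (u3 d22.g))) Helper7_KRO.lE1p = true := by
  decide +kernel

theorem c22_F2 : H4.eq1 (lF2 d22 (t3 22 (u3 (wb1 d22.w)))) Helper7_KRO.lE2p = true := by
  decide +kernel

theorem c22_hz : hzOk d22.pl = true := by decide +kernel

theorem c22_cst : cst1 d22 N22.LL0 H29.lsX (t3 22 (u3 d22.g)) (t3 22 (u3 (wb1 d22.w))) < 0 := by
  decide +kernel

end Pool.Agent.SOS.H57
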