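import Pool.Agent.Helper57_SOS.CLin
import Pool.Agent.Helper39_SOS.CLL
import Pool.Agent.Helper4_SOS.CSS
import Pool.Agent.Helper4_SOS.CLX
import Pool.Agent.Helper29_LPV.Mix7
import Pool.Agent.Helper7_KRO.L1
import Pool.Agent.Helper7_KRO.L3
import Pool.Agent.Helper13_KRO.LLF
import Pool.Agent.Helper13_KRO.SSF
import Pool.Agent.Helper13_KRO.LSF

/-!
# The certificate for n = 22 (MP_37fa12_co)

`cert22`: the certificate `CertW 22 (25/22) d22.W 23 5`.
-/

set_option autoImplicit false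

namespace Pool.Agent.SOS.H57

open Pool.Agent.SOS Pool.Agent.LPK Pool.Agent.LPV

/-- **the certificate for n = 22** -/
theorem cert22 : CertW 22 (25 / 22) d22.W 23 5 :=
  certw2 d22 (LL0 := N22.LL0) (lsL := H29.lsX) (TLL := tm3 N22.dLL) (TSS := tm3 H4.dSS)
    (TLS := tm3 H4.dLS) (L1 := Helper7_KRO.lE1) (L2 := Helper7_KRO.lE2) (F1 := Helper7_KRO.lE1p)
    (F2 := Helper7_KRO.lE2p) N22.LL22
    (fun x y z => congrArg (fun p => v3 p x y z) H29.hls) N22.eLL H4.eSS H4.eLSx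
    Helper13_KRO.LLF.pos Helper13_KRO.SSF.pos Helper13_KRO.LSF.pos H29.mx7
    (fun x => H4.eq1_v x _ _ c22_E1) (fun x => H4.eq1_v x _ _ c22_E2)
    (fun x => H4.eq1_v x _ _ c22_F1) (fun x => H4.eq1_v x _ _ c22_F2)
    Helper7_KRO.l1_v1 Helper7_KRO.l3_v1 c22_hz c22_cst

end Pool.Agent.SOS.H57
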